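import Pool.Agent.helper39.MS.DU1

/-!
# MP_07c750, project ED (duality of the entropies): core

The microlocal lift `μ` of a quantum limit. If mass `m` of `μ` is covered by `e^((ρ + δ) n)` Bowen boxes of length `n`, mass `m'` by `e^((ρ' + δ) n)` such boxes and `ρ + ρ' < 1`, then `m + m' ≤ 1`. The proof is that of row DU1 (helper39) with the covering as hypothesis.
-/

set_option autoImplicit false

open scoped MatrixGroups ContDiff Topology UpperHalfPlane ComplexConjugate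
open UpperHalfPlane MeasureTheory Filter Set

namespace Pool.Agent.ED

open Pool.Agent.RS Pool.Agent.MS
open Pool.Agent.EN (XG MG mkX mkM fl pr)

theorem core (hMU : MU_stmt) (hMS2 : MS2_stmt) (hSTB : STB_stmt) (hXFL : EN.XFL_stmt)
    (hDOM : QU.DOM_stmt) (hDOB : QU.DOB_stmt) (Γ : Subgroup SL(2, ℝ)) (F : Set ℍ) (r : ℕ → ℝ) (φ : ℕ → ℍ → ℂ) (ν : Measure (MG Γ))
    (hΓ : QU.SurfaceGroup Γ) (hF : IsFundamentalDomain Γ F (volume : Measure ℍ)) (hr : Tendsto r atTop atTop) (hφ : ∀ k, Eig Γ (r k) (φ k))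
    (hn : ∀ k, ∫ z in F, ‖φ k z‖ ^ 2 = 1) (hfin : IsFiniteMeasure ν)
    (hν : ∀ V : MG Γ → ℝ, Continuous V → Tendsto (fun k => ∫ z in F, V (mkM Γ z) * ‖φ k z‖ ^ 2) atTop (𝓝 (∫ x, V x ∂ν))) :
    ∃ μ : Measure (XG Γ), IsProbabilityMeasure μ ∧ (∀ t, μ.map (fl Γ t) = μ) ∧ μ.map (pr Γ) = ν ∧
      ∀ ρ ρ' p p' : ℝ, 0 ≤ ρ → 0 ≤ ρ' → ρ + ρ' < 1 → 0 ≤ p → p ≤ 1 → 0 ≤ p' → p' ≤ 1 → (∀ a : ℝ, 0 < a → CW Γ μ p a ρ) → (∀ a : ℝ, 0 < a → CW Γ μ p' a ρ') → p + p' ≤ 1 := by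
  obtain ⟨F₀, hF₀⟩ := hDOM Γ hΓ
  obtain ⟨-, -, -, -, hdob, -⟩ := hDOB Γ F₀ hΓ hF₀
  have hdom := (hdob F hF).2
  obtain ⟨-, hprc, -, -, hsur, -, -, -, -, -, -, hmkM⟩ := hXFL Γ
  obtain ⟨-, -, -, -, -, hex⟩ := hSTB
  obtain ⟨β, hβ⟩ := (hex (1 / 4) (by norm_num)).2
  obtain ⟨α, hα'⟩ := (hex (1 / 8) (by norm_num)).1
  have hinv : ∀ k (γ : Γ) z, ‖φ k (γ • z)‖ ^ 2 = ‖φ k z‖ ^ 2 := by
    intro k γ z
    rw [(hφ k).2.1 γ z]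
  have hn0 : ∀ k, nn F₀ (φ k) = 1 := by
    intro k
    unfold nn
    rw [← hdom _ (hinv k)]
    exact hn k
  have hν0 : ∀ V : MG Γ → ℝ, Continuous V →
      Tendsto (fun k => ∫ z in F₀, V (mkM Γ z) * ‖φ k z‖ ^ 2) atTop (𝓝 (∫ x, V x ∂ν)) := by
    intro V hV
    refine (hν V hV).congr fun k => ?_
    refine hdom _ fun γ z => ?_
    rw [hinv k γ z, (hmkM (γ • z) z).2 ⟨γ⁻¹, by rw [inv_smul_smul]⟩]
  obtain ⟨μ, hμ, hflow, hmap, hlow⟩ := hMU Γ F₀ β α r φ ν hΓ hF₀ hβ hα' hr hφ hn0 hfin hν0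
  refine ⟨μ, hμ, hflow, hmap, ?_⟩
  intro ρ ρ' p p' hρ hρ' hρρ hp0 hp1 hp0' hp1' hC hC'
  set m : ℝ := p + p' with hm
  have hm0 : 0 ≤ m := add_nonneg hp0 hp0'
  have hm2 : m ≤ 2 := by linarith
  have key : ∀ ε : ℝ, 0 < ε → ε ≤ 1 → m ≤ 1 + ε := by
    intro ε hε hε1
    obtain ⟨a, δ, n1, ha, hδ, -, hMS⟩ := hMS2 Γ F₀ β α ρ ρ' hΓ hF₀ hβ hα' hρ hρ' hρρ ε hε hε1
    obtain ⟨n2, hn2⟩ := hC a ha δ hδ
    obtain ⟨n3, hn3⟩ := hC' a ha δ hδ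
    set n := max n1 (max n2 n3) with hnn
    obtain ⟨A, hA, hAm⟩ := hn2 n (le_trans (le_max_left _ _) (le_max_right _ _))
    obtain ⟨A', hA', hAm'⟩ := hn3 n (le_trans (le_max_right _ _) (le_max_right _ _))
    obtain ⟨Ψ, Ψ', r2, hI, hI', h01, h01', h1, h1', hr2, hfinal⟩ := hMS n (le_max_left _ _) A A' hA hA'
    have hc := DU1_lift_cont Γ Ψ hI
    have hc' := DU1_lift_cont Γ Ψ' hI'
    have g01 : ∀ x, 0 ≤ DU1_lift Γ Ψ hI x ∧ DU1_lift Γ Ψ hI x ≤ 1 := by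
      intro x
      obtain ⟨g, rfl⟩ := hsur x
      exact h01 g
    have g01' : ∀ x, 0 ≤ DU1_lift Γ Ψ' hI' x ∧ DU1_lift Γ Ψ' hI' x ≤ 1 := by
      intro x
      obtain ⟨g, rfl⟩ := hsur x
      exact h01' g
    have hi := DU1_low Γ hsur μ hμ A a _ Ψ hI h01 h1
    have hi' := DU1_low Γ hsur μ hμ A' a _ Ψ' hI' h01' h1'
    have hsum : ∫ x, (DU1_lift Γ Ψ hI x + DU1_lift Γ Ψ' hI' x) ∂μ =
        ∫ x, DU1_lift Γ Ψ hI x ∂μ + ∫ x, DU1_lift Γ Ψ' hI' x ∂μ :=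
      integral_add (DU1_int Γ μ hμ _ hc g01) (DU1_int Γ μ hμ _ hc' g01')
    have hb : m - 4 * δ < ∫ x, (DU1_lift Γ Ψ hI x + DU1_lift Γ Ψ' hI' x) ∂μ := by
      rw [hsum]
      linarith
    have hfr := hlow (fun x => DU1_lift Γ Ψ hI x + DU1_lift Γ Ψ' hI' x) (m - 4 * δ) (hc.add hc') hb
    have hev : ∀ᶠ k in atTop, r2 ≤ r k := hr.eventually (eventually_ge_atTop r2)
    obtain ⟨k, ⟨t, ht1, ht2, ht3⟩, hk⟩ := (hfr.and_eventually hev).exists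
    refine hfinal (r k) m t (φ k) hk ?_ (hn0 k) hm0 hm2 ht1 ht2 ht3
    exact ⟨(hφ k).1.of_le (WithTop.coe_le_coe.2 (le_top : (2 : ℕ∞) ≤ ⊤)), (hφ k).2.1, fun z => by rw [(hφ k).2.2 z]⟩
  by_contra hcon
  push Not at hcon
  have h1 := key (min ((m - 1) / 2) 1) (lt_min (by linarith) one_pos) (min_le_right _ _)
  have h2 : min ((m - 1) / 2) 1 ≤ (m - 1) / 2 := min_le_left _ _
  linarith

end Pool.Agent.ED
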